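import Pool.Agent.Helper848.KnightFinal

namespace Pool.Agent.Results.MP_b90a94_co.KnightPairFormula

open Pool.Agent.Helper848

/-- Explicit formula, for every `n ≥ 2`, for the number `T(n)` of domino tilings of the Aztec
diamond of order `n` with the squares centred at `(-1/2, -1/2)` and `(1/2, 3/2)` removed.
The four clauses are the four residue classes of `n` modulo `4`; together they cover all
`n ≥ 2`. In each clause the power of two is `2 ^ (n (n + 1) / 2)`. -/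
theorem result :
    (∀ k : ℕ, 1 ≤ k → (numTilings (knightRegion (4 * k)) : ℚ) =
      2 ^ (2 * k * (4 * k + 1)) * ((k : ℚ) / 2 * ((Nat.centralBinom k : ℚ) / 4 ^ k) ^ 2 *
        (1 + ((Nat.centralBinom k : ℚ) / 4 ^ k) ^ 2))) ∧
    (∀ k : ℕ, 1 ≤ k → (numTilings (knightRegion (4 * k + 1)) : ℚ) =
      2 ^ ((2 * k + 1) * (4 * k + 1)) * ((2 * (k : ℚ) + 1) / 4 *
        ((Nat.centralBinom k : ℚ) / 4 ^ k) ^ 2 *
        (1 - ((Nat.centralBinom k : ℚ) / 4 ^ k) ^ 2))) ∧
    (∀ k : ℕ, (numTilings (knightRegion (4 * k + 2)) : ℚ) =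
      2 ^ ((2 * k + 1) * (4 * k + 3)) * ((2 * (k : ℚ) + 1) / 4 *
        ((Nat.centralBinom k : ℚ) / 4 ^ k) ^ 2)) ∧
    (∀ k : ℕ, (numTilings (knightRegion (4 * k + 3)) : ℚ) =
      2 ^ ((2 * k + 2) * (4 * k + 3)) * (((k : ℚ) + 1) / 2 *
        ((Nat.centralBinom (k + 1) : ℚ) / 4 ^ (k + 1)) ^ 2)) :=
  ⟨KnightFinal.final0, KnightFinal.final1, KnightFinal.final2, KnightFinal.final3⟩

end Pool.Agent.Results.MP_b90a94_co.KnightPairFormula
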